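import Pool.Agent.L7h10.AB.Stm2

set_option autoImplicit false

namespace Pool.Agent.L7h73.AB

open Polynomial Pool.Agent.L7h10.AB

theorem ex_lin {K : Type} [Field K] {g : K[X]} (hg : g.Monic) (hd : g.natDegree = 1) :
    ∃ b : K, g = X - C b := by
  have := hg.eq_X_add_C hd
  exact ⟨-g.coeff 0, by rw [this]; simp⟩

theorem cc_ex {K : Type} [Field K] (p : ℕ) [CharP K p] (n : ℕ) (h7 : 7 ≤ n) (hp : n + 1 < p)
    (g g' h h' : K[X]) (hg : g.Monic) (hg2 : g.natDegree = 2) (hg' : g'.Monic)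
    (hg2' : g'.natDegree = 2) (hh : h.Monic) (hhn : h.natDegree = n - 3) (hh' : h'.Monic)
    (hhn' : h'.natDegree = n - 3) (hne : ¬ (g = g' ∧ h = h')) (hcop : ¬ IsCoprime g g')
    (hder : derivative (g ^ 2 * h) = derivative (g' ^ 2 * h')) :
    ∃ (b c c' : K) (k : K[X]), k.Monic ∧ k.natDegree = n - 5 ∧ g = (X - C b) * (X - C c) ∧
      g' = (X - C b) * (X - C c') ∧ h = (X - C c') ^ 2 * k ∧ h' = (X - C c) ^ 2 * k := by
  have h1 : ∃ z : K[X], Irreducible z ∧ z ∣ g ∧ z ∣ g' := by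
    by_contra hno
    push Not at hno
    exact hcop (isCoprime_of_irreducible_dvd (fun h0 => hg.ne_zero h0.1)
      fun z hz hz1 hz2 => hno z hz hz1 hz2)
  obtain ⟨z, hz, hzg, hzg'⟩ := h1
  have hz0 := hz.ne_zero
  obtain ⟨w, hw, hwd, hwg, hwg'⟩ : ∃ w : K[X], w.Monic ∧ 1 ≤ w.natDegree ∧ w ∣ g ∧ w ∣ g' := by
    have hu : C (z.leadingCoeff)⁻¹ ≠ (0 : K[X]) := by
      simpa using hz0
    have hun : IsUnit (C (z.leadingCoeff)⁻¹ : K[X]) := by
      rw [isUnit_C]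
      exact (isUnit_iff_ne_zero.2 (inv_ne_zero (leadingCoeff_ne_zero.2 hz0)))
    refine ⟨z * C (z.leadingCoeff)⁻¹, monic_mul_leadingCoeff_inv hz0, ?_, ?_, ?_⟩
    · rw [natDegree_mul_leadingCoeff_inv z hz0]
      exact hz.natDegree_pos
    · exact (hun.mul_right_dvd).2 hzg
    · exact (hun.mul_right_dvd).2 hzg'
  have hdeg : ∀ g h : K[X], g.Monic → g.natDegree = 2 → h.Monic → h.natDegree = n - 3 →
      (g ^ 2 * h).natDegree = n + 1 := by
    intro g h hg hg2 hh hhn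
    rw [(hg.pow 2).natDegree_mul hh, hg.natDegree_pow, hg2, hhn]
    omega
  have hd0 : derivative (g ^ 2 * h - g' ^ 2 * h') = 0 := by
    rw [derivative_sub, hder, sub_self]
  have hlt : (g ^ 2 * h - g' ^ 2 * h').natDegree < p := by
    refine (natDegree_sub_le _ _).trans_lt ?_
    rw [hdeg g h hg hg2 hh hhn, hdeg g' h' hg' hg2' hh' hhn', max_self]
    exact hp
  have hc := Pool.Agent.L7h56.AB.const_of_deriv p _ hlt hd0
  have hdw : w ∣ g ^ 2 * h - g' ^ 2 * h' := by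
    apply dvd_sub
    · exact Dvd.dvd.mul_right (dvd_pow hwg two_ne_zero) _
    · exact Dvd.dvd.mul_right (dvd_pow hwg' two_ne_zero) _
  have hz : g ^ 2 * h - g' ^ 2 * h' = 0 := by
    apply eq_zero_of_dvd_of_natDegree_lt hdw
    rw [hc, natDegree_C]
    omega
  have heq : g ^ 2 * h = g' ^ 2 * h' := sub_eq_zero.1 hz
  have hgg : g ≠ g' := by
    rintro rfl
    exact hne ⟨rfl, mul_left_cancel₀ (pow_ne_zero 2 hg.ne_zero) heq⟩
  obtain ⟨l, hl⟩ := hwg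
  obtain ⟨l', hl'⟩ := hwg'
  have hlm : l.Monic := hw.of_mul_monic_left (by rw [← hl]; exact hg)
  have hlm' : l'.Monic := hw.of_mul_monic_left (by rw [← hl']; exact hg')
  have e1 := hw.natDegree_mul hlm
  have e2 := hw.natDegree_mul hlm'
  rw [← hl, hg2] at e1
  rw [← hl', hg2'] at e2
  have hw1 : w.natDegree = 1 := by
    by_contra h1
    have h0 : l.natDegree = 0 := by omega
    have h0' : l'.natDegree = 0 := by omega
    apply hgg
    rw [hl, hl', hlm.natDegree_eq_zero.1 h0, hlm'.natDegree_eq_zero.1 h0']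
  obtain ⟨b, rfl⟩ := ex_lin hw hw1
  obtain ⟨c, rfl⟩ := ex_lin hlm (by omega)
  obtain ⟨c', rfl⟩ := ex_lin hlm' (by omega)
  have hcc : c ≠ c' := by
    rintro rfl
    exact hgg (by rw [hl, hl'])
  have heq2 : (X - C c) ^ 2 * h = (X - C c') ^ 2 * h' := by
    apply mul_left_cancel₀ (pow_ne_zero 2 hw.ne_zero)
    rw [hl, hl'] at heq
    linear_combination heq
  have hco : IsCoprime ((X - C c') ^ 2) ((X - C c) ^ 2) := by
    apply IsCoprime.pow
    exact pairwise_coprime_X_sub_C Function.injective_id hcc.symm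
  obtain ⟨k, hk⟩ : (X - C c') ^ 2 ∣ h := by
    apply hco.dvd_of_dvd_mul_left
    exact ⟨h', heq2⟩
  have hkm : k.Monic := ((monic_X_sub_C c').pow 2).of_mul_monic_left (by rw [← hk]; exact hh)
  have e3 := ((monic_X_sub_C c').pow 2).natDegree_mul hkm
  rw [← hk, hhn, (monic_X_sub_C c').natDegree_pow, natDegree_X_sub_C] at e3
  refine ⟨b, c, c', k, hkm, by omega, hl, hl', hk, ?_⟩
  apply mul_left_cancel₀ (pow_ne_zero 2 (X_sub_C_ne_zero c'))
  rw [← heq2, hk]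
  ring

theorem cc2 (hC : S_CARD) (K : Type) [Field K] [Finite K] (p : ℕ) [CharP K p] (n : ℕ)
    (h7 : 7 ≤ n) (hp : n + 1 < p) :
    Nat.card {x : (Mon K 2 × Mon K (n - 3)) × (Mon K 2 × Mon K (n - 3)) // x.1 ≠ x.2 ∧
      ¬ IsCoprime x.1.1.1 x.2.1.1 ∧
      derivative (x.1.1.1 ^ 2 * x.1.2.1) = derivative (x.2.1.1 ^ 2 * x.2.2.1)} ≤
      Nat.card K ^ (n - 2) := by
  have hf := (hC K (n - 5)).1
  have hcard : Nat.card (K × K × K × Mon K (n - 5)) = Nat.card K ^ (n - 2) := by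
    rw [Nat.card_prod, Nat.card_prod, Nat.card_prod, (hC K (n - 5)).2, ← pow_succ', ← pow_succ',
      ← pow_succ']
    congr 1
    omega
  rw [← hcard]
  have hex : ∀ x : {x : (Mon K 2 × Mon K (n - 3)) × (Mon K 2 × Mon K (n - 3)) // x.1 ≠ x.2 ∧
      ¬ IsCoprime x.1.1.1 x.2.1.1 ∧
      derivative (x.1.1.1 ^ 2 * x.1.2.1) = derivative (x.2.1.1 ^ 2 * x.2.2.1)},
      ∃ y : K × K × K × Mon K (n - 5), x.1.1.1.1 = (X - C y.1) * (X - C y.2.1) ∧
        x.1.2.1.1 = (X - C y.1) * (X - C y.2.2.1) ∧ x.1.1.2.1 = (X - C y.2.2.1) ^ 2 * y.2.2.2.1 ∧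
        x.1.2.2.1 = (X - C y.2.1) ^ 2 * y.2.2.2.1 := by
    rintro ⟨⟨⟨g, h⟩, ⟨g', h'⟩⟩, hx1, hx2, hx3⟩
    obtain ⟨b, c, c', k, hk1, hk2, e1, e2, e3, e4⟩ := cc_ex p n h7 hp g.1 g'.1 h.1 h'.1 g.2.1 g.2.2
      g'.2.1 g'.2.2 h.2.1 h.2.2 h'.2.1 h'.2.2
      (fun hh => hx1 (Prod.ext (Subtype.ext hh.1) (Subtype.ext hh.2))) hx2 hx3
    exact ⟨(b, c, c', ⟨k, hk1, hk2⟩), e1, e2, e3, e4⟩
  choose f hf1 hf2 hf3 hf4 using hex
  apply Nat.card_le_card_of_injective f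
  intro x y hxy
  apply Subtype.ext
  refine Prod.ext (Prod.ext (Subtype.ext ?_) (Subtype.ext ?_))
    (Prod.ext (Subtype.ext ?_) (Subtype.ext ?_))
  · rw [hf1, hf1, hxy]
  · rw [hf3, hf3, hxy]
  · rw [hf2, hf2, hxy]
  · rw [hf4, hf4, hxy]

end Pool.Agent.L7h73.AB
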