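import Pool.Agent.L7h10.AB.Stm

/-!
# Project AB (MP_cc3311_ag), part COL
-/

set_option autoImplicit false

namespace Pool.Agent.L7h73.AB

open Pool.Agent.L7h10.AB

variable {L : Type} [Field L]

theorem f_eq {m e b c d : L} (h : Phi m e b c d) (x : L) :
    x ^ 4 + b * x ^ 2 + c * x + d =
      ((x - m) ^ 2 - 5 * e) * (x ^ 2 + 2 * m * x - (3 * m ^ 2 + e)) := by
  obtain ⟨hb, hc, hd⟩ := h
  rw [hb, hc, hd]
  ring

theorem f'_eq {m e b c d : L} (h : Phi m e b c d) (x : L) :
    4 * x ^ 3 + 2 * b * x + c =
      2 * (x - m) * (x ^ 2 + 2 * m * x - (3 * m ^ 2 + e)) +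
        ((x - m) ^ 2 - 5 * e) * (2 * (x + m)) := by
  obtain ⟨hb, hc, hd⟩ := h
  rw [hb, hc]
  ring

theorem s_COL : S_COL := by
  intro L _ _ h2 h3 h5 b c d
  constructor
  · rintro ⟨hD, r, s, hrs, hr, hs, hF⟩
    obtain ⟨m, hm⟩ : ∃ m : L, m = (r + s) / 2 := ⟨_, rfl⟩
    obtain ⟨δ, hδ⟩ : ∃ δ : L, δ = (r - s) / 2 := ⟨_, rfl⟩
    have hr' : r = m + δ := by
      rw [hm, hδ]
      field_simp
      ring
    have hs' : s = m - δ := by
      rw [hm, hδ]
      field_simp
      ring
    have hδ0 : δ ≠ 0 := by
      rintro rfl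
      apply hrs
      rw [hr', hs', add_zero, sub_zero]
    clear hm hδ
    subst hr' hs'
    have hF' : 6 * (m + δ) ^ 5 + 10 * b * (m + δ) ^ 3 + 15 * c * (m + δ) ^ 2 + 30 * d * (m + δ) =
        6 * (m - δ) ^ 5 + 10 * b * (m - δ) ^ 3 + 15 * c * (m - δ) ^ 2 + 30 * d * (m - δ) := by
      have e1 : ∀ t : L, 30 * (t ^ 5 / 5 + b * t ^ 3 / 3 + c * t ^ 2 / 2 + d * t) =
          6 * t ^ 5 + 10 * b * t ^ 3 + 15 * c * t ^ 2 + 30 * d * t := by
        intro t
        field_simp
        ring
      rw [← e1, ← e1, hF]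
    have hc : c = -4 * m ^ 3 - 4 * m * δ ^ 2 - 2 * b * m := by
      have h : (2 * δ) * (c - (-4 * m ^ 3 - 4 * m * δ ^ 2 - 2 * b * m)) = 0 := by
        linear_combination hr - hs
      rcases mul_eq_zero.1 h with h | h
      · exact absurd h (mul_ne_zero h2 hδ0)
      · exact sub_eq_zero.1 h
    have hd : d = -(m ^ 4 + 6 * m ^ 2 * δ ^ 2 + δ ^ 4) - b * (m ^ 2 + δ ^ 2) - c * m := by
      have h : 2 * (d - (-(m ^ 4 + 6 * m ^ 2 * δ ^ 2 + δ ^ 4) - b * (m ^ 2 + δ ^ 2) - c * m)) = 0 := by
        linear_combination hr + hs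
      rcases mul_eq_zero.1 h with h | h
      · exact absurd h h2
      · exact sub_eq_zero.1 h
    have h4 : (4 : L) ≠ 0 := by
      have : (4 : L) = 2 * 2 := by norm_num
      rw [this]
      exact mul_ne_zero h2 h2
    have hb : 5 * b + 30 * m ^ 2 + 6 * δ ^ 2 = 0 := by
      have h : (2 * 4 * δ ^ 3) * (5 * b + 30 * m ^ 2 + 6 * δ ^ 2) = 0 := by
        rw [hd, hc] at hF'
        linear_combination -hF'
      rcases mul_eq_zero.1 h with h | h
      · exact absurd h (mul_ne_zero (mul_ne_zero h2 h4) (pow_ne_zero 3 hδ0))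
      · exact h
    obtain ⟨e, he⟩ : ∃ e : L, 5 * e = δ ^ 2 := ⟨δ ^ 2 / 5, by field_simp⟩
    have hb' : b = -6 * (m ^ 2 + e) := by
      have h : 5 * (b - -6 * (m ^ 2 + e)) = 0 := by
        linear_combination hb + 6 * he
      rcases mul_eq_zero.1 h with h | h
      · exact absurd h h5
      · exact sub_eq_zero.1 h
    have hc' : c = 8 * m * (m ^ 2 - e) := by
      rw [hc, hb']
      linear_combination 4 * m * he
    have hd' : d = -(m ^ 2 - 5 * e) * (3 * m ^ 2 + e) := by
      rw [hd, hc', hb']
      linear_combination (6 * m ^ 2 + δ ^ 2 + 5 * e - 6 * (m ^ 2 + e)) * he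
    have hPhi : Phi m e b c d := ⟨hb', hc', hd'⟩
    refine ⟨m, e, ⟨?_, ?_, ?_⟩, hPhi⟩
    · rintro rfl
      rw [mul_zero] at he
      exact hδ0 (pow_eq_zero_iff (two_ne_zero)|>.1 he.symm)
    · intro h
      refine hD ⟨-m, ?_, ?_⟩
      · rw [f_eq hPhi, h]
        ring
      · rw [f'_eq hPhi, h]
        ring
    · intro h
      refine hD ⟨-4 * m, ?_, ?_⟩
      · rw [f_eq hPhi, h]
        ring
      · rw [f'_eq hPhi, h]
        ring
  · rintro ⟨m, e, ⟨he0, he1, he2⟩, hPhi⟩
    have h4 : (4 : L) ≠ 0 := by
      have : (4 : L) = 2 * 2 := by norm_num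
      rw [this]
      exact mul_ne_zero h2 h2
    constructor
    · rintro ⟨x, hx, hx'⟩
      rw [f_eq hPhi] at hx
      rw [f'_eq hPhi] at hx'
      rcases mul_eq_zero.1 hx with hA | hB
      · rw [hA, zero_mul, add_zero] at hx'
        rcases mul_eq_zero.1 hx' with h | hB
        · rcases mul_eq_zero.1 h with h | h
          · exact h2 h
          · rw [h] at hA
            apply mul_ne_zero h5 he0
            linear_combination -hA
        · have h6 : 4 * (e + m * (x - m)) = 0 := by linear_combination hB - hA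
          rcases mul_eq_zero.1 h6 with h | h
          · exact h4 h
          · have h7 : (x - m) * (x - m + 5 * m) = 0 := by
              linear_combination hA + 5 * h
            rcases mul_eq_zero.1 h7 with h8 | h8
            · rw [h8, mul_zero, add_zero] at h
              exact he0 h
            · apply he2
              linear_combination h - m * h8
      · rw [hB, mul_zero, zero_add] at hx'
        rcases mul_eq_zero.1 hx' with hA | h
        · -- both vanish
          have h6 : 4 * (e + m * (x - m)) = 0 := by linear_combination hB - hA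
          rcases mul_eq_zero.1 h6 with h | h
          · exact h4 h
          · have h7 : (x - m) * (x - m + 5 * m) = 0 := by
              linear_combination hA + 5 * h
            rcases mul_eq_zero.1 h7 with h8 | h8
            · rw [h8, mul_zero, add_zero] at h
              exact he0 h
            · apply he2
              linear_combination h - m * h8
        · rcases mul_eq_zero.1 h with h | h
          · exact h2 h
          · apply he1
            have hxm : x = -m := by linear_combination h
            rw [hxm] at hB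
            linear_combination -hB
    · obtain ⟨δ, hδ⟩ := IsAlgClosed.exists_pow_nat_eq (5 * e) (n := 2) (by norm_num)
      have hδ0 : δ ≠ 0 := by
        rintro rfl
        apply mul_ne_zero h5 he0
        rw [← hδ]
        ring
      refine ⟨m + δ, m - δ, ?_, ?_, ?_, ?_⟩
      · intro h
        apply mul_ne_zero h2 hδ0
        linear_combination h
      · rw [f_eq hPhi]
        have : (m + δ - m) ^ 2 - 5 * e = 0 := by linear_combination hδ
        rw [this, zero_mul]
      · rw [f_eq hPhi]
        have : (m - δ - m) ^ 2 - 5 * e = 0 := by linear_combination hδ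
        rw [this, zero_mul]
      · obtain ⟨hb, hc, hd⟩ := hPhi
        have e1 : ∀ t : L, 30 * (t ^ 5 / 5 + b * t ^ 3 / 3 + c * t ^ 2 / 2 + d * t) =
            6 * t ^ 5 + 10 * b * t ^ 3 + 15 * c * t ^ 2 + 30 * d * t := by
          intro t
          field_simp
          ring
        have h30 : (30 : L) ≠ 0 := by
          have : (30 : L) = 2 * (3 * 5) := by norm_num
          rw [this]
          exact mul_ne_zero h2 (mul_ne_zero h3 h5)
        apply mul_left_cancel₀ h30
        rw [e1, e1, hb, hc, hd]
        have hδ5 : δ ^ 5 = 5 * e * δ ^ 3 := by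
          rw [← hδ]
          ring
        have hδ3 : δ ^ 3 = 5 * e * δ := by
          rw [← hδ]
          ring
        linear_combination (12) * hδ5 + (60 * e + 120 * m ^ 2 - 120 * m ^ 2 - 120 * e) * hδ3

end Pool.Agent.L7h73.AB
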