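import Pool.Agent.L7h10.AB.Stm2

set_option autoImplicit false

namespace Pool.Agent.L7h73.AB

open Polynomial Pool.Agent.L7h10.AB

theorem card_mon (K : Type) [Field K] [Finite K] (m : ℕ) :
    Nat.card (Mon K m) = Nat.card K ^ m := by
  unfold Mon
  rw [Nat.card_congr (monicEquivDegreeLT (R := K) m),
    Nat.card_congr (degreeLTEquiv K m).toEquiv, Nat.card_fun]
  simp

theorem s_RES : S_RES := by
  intro K _ _ m u r hu hm
  have hu0 : u ≠ 0 := hu.ne_zero
  rw [← card_mon K (m - u.natDegree)]
  symm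
  have hdr : (r %ₘ u).degree < u.degree := degree_modByMonic_lt r hu
  have hmod := modByMonic_add_div r u
  have key : ∀ g : Mon K (m - u.natDegree),
      (u * g.1 + r %ₘ u).Monic ∧ (u * g.1 + r %ₘ u).natDegree = m := by
    intro g
    have h1 : (u * g.1).Monic := hu.mul g.2.1
    have h2 : (u * g.1).natDegree = m := by
      rw [hu.natDegree_mul g.2.1, g.2.2]; omega
    have h3 : (r %ₘ u).degree < (u * g.1).degree := by
      refine hdr.trans_le ?_
      rw [degree_eq_natDegree hu0, degree_eq_natDegree h1.ne_zero, h2]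
      exact_mod_cast hm
    exact ⟨h1.add_of_left h3, by rw [natDegree_add_eq_left_of_degree_lt h3, h2]⟩
  refine Nat.card_congr (Equiv.ofBijective
    (fun g : Mon K (m - u.natDegree) =>
      (⟨⟨u * g.1 + r %ₘ u, key g⟩, ⟨g.1 - r /ₘ u, by linear_combination hmod⟩⟩ :
        {h : Mon K m // u ∣ h.1 - r})) ⟨?_, ?_⟩)
  · intro g g' h
    have h1 : u * g.1 + r %ₘ u = u * g'.1 + r %ₘ u := congrArg (fun x => x.1.1) h
    have h2 : u * g.1 = u * g'.1 := by linear_combination h1
    exact Subtype.ext (mul_left_cancel₀ hu0 h2)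
  · rintro ⟨⟨h, hh1, hh2⟩, k, hk⟩
    simp only at hk
    have e : u * (k + r /ₘ u) = h - r %ₘ u := by linear_combination hmod - hk
    have h3 : (r %ₘ u).degree < h.degree := by
      refine hdr.trans_le ?_
      rw [degree_eq_natDegree hu0, degree_eq_natDegree hh1.ne_zero, hh2]
      exact_mod_cast hm
    have h4 : (h - r %ₘ u).Monic := hh1.sub_of_left h3
    have h5 : (h - r %ₘ u).natDegree = m := by
      rw [natDegree_eq_of_degree_eq (degree_sub_eq_left_of_degree_lt h3), hh2]
    have h6 : (k + r /ₘ u).Monic := hu.of_mul_monic_left (by rw [e]; exact h4)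
    refine ⟨⟨k + r /ₘ u, h6, ?_⟩, ?_⟩
    · have := hu.natDegree_mul h6
      rw [e, h5] at this
      omega
    · apply Subtype.ext
      apply Subtype.ext
      change u * (k + r /ₘ u) + r %ₘ u = h
      rw [e]; ring

end Pool.Agent.L7h73.AB
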